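import Pool.Agent.H.MP_158c61.A

set_option autoImplicit false
open Set Filter Topology TopologicalSpace

namespace Pool.Agent.Results.MP_158c61_gt.Cube

open Pool.Agent.H.MP_158c61

def Subpara (Z : Type) [TopologicalSpace Z] : Prop :=
  ∀ 𝒰 : Set (Set Z), (∀ U ∈ 𝒰, IsOpen U) → ⋃₀ 𝒰 = univ →
    ∃ F : ℕ → Set (Set Z), (∀ n, ∀ A ∈ F n, IsClosed A ∧ ∃ U ∈ 𝒰, A ⊆ U) ∧
      (∀ n, ∀ z : Z, ∃ W ∈ 𝓝 z, {A ∈ F n | (A ∩ W).Nonempty}.Subsingleton) ∧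
        ⋃ n, ⋃₀ F n = univ

theorem result : ∃ (X : Type) (_ : TopologicalSpace X), CompactSpace X ∧ T2Space X ∧
    (∃ (K : Type) (p : (K → Bool) → X), Continuous p ∧ Function.Surjective p) ∧
    ¬ MetrizableSpace X ∧ Subpara {f : X → ℝ | Continuous f} ∧
      ∀ Z : Set (X → ℝ), Z ⊆ {f : X → ℝ | Continuous f} → Subpara Z := by
  classical
  suffices h : ∀ Z : Set (((ℕ → Bool) → Bool) → ℝ), Z ⊆ {f | Continuous f} → Subpara Z from
    ⟨(ℕ → Bool) → Bool, inferInstance, inferInstance, inferInstance,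
      ⟨_, id, continuous_id, Function.surjective_id⟩, fun k => by
        have : Uncountable (ℕ → Bool) := Cardinal.aleph0_lt_mk_iff.1 (by
          simpa using Cardinal.aleph0_lt_continuum)
        have := Clopens.countable_iff_secondCountable (X := (ℕ → Bool) → Bool).2 inferInstance
        refine not_countable (Function.Injective.countable (f := fun α => (⟨{x | x α = true},
          (isClopen_discrete {true}).preimage (continuous_apply α)⟩ : Clopens ((ℕ → Bool) → Bool)))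
            fun α β e => ?_)
        exact (of_decide_eq_true ((SetLike.ext_iff.1 e fun γ => decide (γ = α)).1
          (decide_eq_true rfl))).symm,
      h _ subset_rfl, h⟩
  intro Z hZ 𝒰 h1 h2
  obtain ⟨L, hL⟩ := exists_surjective_nat (Σ k : ℕ, (((Fin k → Bool) → Bool) → ℚ) ×
    Set (Fin k → Bool) × ℕ × ℕ × ℕ)
  let G : ℕ → Set (ℕ → Bool) → Set (((ℕ → Bool) → Bool) → ℝ) := fun n =>
    N (fun α (i : Fin (L n).1) => α i) (L n).2.1 (L n).2.2.1 (1 / ((L n).2.2.2.1 + 1))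
      (1 / ((L n).2.2.2.2.1 + 1)) (1 / ((L n).2.2.2.2.2 + 1))
  refine ⟨fun n => {A | (∃ U ∈ 𝒰, A ⊆ U) ∧ ∃ t, A = closure ((↑) ⁻¹' G n t)}, ?_, fun n z => ?_,
    eq_univ_of_forall fun z => ?_⟩
  · rintro n _ ⟨k, t, rfl⟩
    exact ⟨isClosed_closure, k⟩
  · obtain ⟨W, w1, w2, w3⟩ := mem_nhds_iff.1 (continuous_subtype_val.continuousAt (x := z)
      (disc (r := fun α (i : Fin (L n).1) => α i) (hZ z.2) (L n).2.1 (L n).2.2.1
        (1 / ((L n).2.2.2.2.2 + 1)) (Nat.one_div_pos_of_nat (n := (L n).2.2.2.1))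
          (Nat.one_div_pos_of_nat (n := (L n).2.2.2.2.1))))
    refine ⟨W, w2.mem_nhds w3, ?_⟩
    rintro _ ⟨⟨-, s, rfl⟩, x, x1, x2⟩ _ ⟨⟨-, t, rfl⟩, y, y1, y2⟩
    obtain ⟨a, a1, a2⟩ := mem_closure_iff.1 x1 W w2 x2
    obtain ⟨b, b1, b2⟩ := mem_closure_iff.1 y1 W w2 y2
    rw [w1 a1 s a2, w1 b1 t b2]
  · obtain ⟨U, u1, u2⟩ := h2.ge (mem_univ z)
    obtain ⟨C, c1, c2, c3⟩ := exists_mem_nhds_isClosed_subset ((h1 U u1).mem_nhds u2)
    obtain ⟨V, v1, v2⟩ := (mem_nhds_subtype _ _ _).1 c1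
    obtain ⟨k, q, M, i, j, l, t, t1, t2⟩ := net _ (hZ z.2) v1
    obtain ⟨n, hn⟩ := hL ⟨k, q, M, i, j, l⟩
    have e : G n t = _ := congrArg (fun c : Σ k : ℕ, (((Fin k → Bool) → Bool) → ℚ) ×
      Set (Fin k → Bool) × ℕ × ℕ × ℕ => N (fun (α : ℕ → Bool) (i : Fin c.1) => α i) c.2.1 c.2.2.1
        (1 / (c.2.2.2.1 + 1)) (1 / (c.2.2.2.2.1 + 1)) (1 / (c.2.2.2.2.2 + 1)) t) hn
    exact mem_iUnion.2 ⟨n, _, ⟨⟨U, u1, (closure_minimal ((preimage_mono (e.le.trans t2)).trans v2)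
      c2).trans c3⟩, t, rfl⟩, subset_closure (e.ge t1)⟩

end Pool.Agent.Results.MP_158c61_gt.Cube
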